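import Pool.Agent.H12.UCR.Stmts3

/-!
# MP_e822af, board `ucr`, row NRT
-/

set_option autoImplicit false

open MeasureTheory Filter Topology

namespace Pool.UCR

theorem nrt_thm (h1 : CPTS) (h2 : NRDS) : NRTS := by
  intro p q hp hq ρ hρ Φ
  haveI : BaireSpace (PP p) := (h1 p).2.2
  let U : ℕ × ℕ → Set (PP p) := fun x => {μ : PP p | ∃ N0 : ℕ, x.2 ≤ N0 ∧
    ∀ N : ℕ, N0 ≤ N → N ≤ Φ N0 → ρ N < ‖Av q (x.1 + 1) N (fc μ)‖}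
  have hU : ∀ x, IsOpen (U x) ∧ Dense (U x) := fun x =>
    h2 p q (x.1 + 1) x.2 hp hq (Nat.le_add_left 1 x.1) ρ hρ Φ
  refine ⟨⋂ x, U x, IsGδ.iInter_of_isOpen (fun x => (hU x).1),
    dense_iInter_of_isOpen (fun x => (hU x).1) (fun x => (hU x).2), ?_⟩
  intro μ hμ k hk M
  have h3 := Set.mem_iInter.1 hμ (k - 1, M)
  have hk1 : k - 1 + 1 = k := Nat.sub_add_cancel hk
  have h4 : ∃ N0 : ℕ, M ≤ N0 ∧ ∀ N : ℕ, N0 ≤ N → N ≤ Φ N0 →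
      ρ N < ‖Av q (k - 1 + 1) N (fc μ)‖ := h3
  rwa [hk1] at h4

end Pool.UCR
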